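import Pool.Agent.Q265.Rcr2

set_option autoImplicit false

/-!
# Right closed repeats starting at prescribed positions

A string of length `n` over the alphabet `ℕ` is a function `s : ℕ → ℕ` of which only the values
`s 1, ..., s n` are used.  We show that the number of right closed repeats `s[i..j]` with `i ∈ P`
is not `O (n + |P| log n)`.
-/

namespace Pool.Agent.Results.MP_b69f9e_co.TooManyRepeats

/-- The string `s[i..j]` occurs in the string `s[1..n]` at position `p`. -/
def OccursAt (n : ℕ) (s : ℕ → ℕ) (i j p : ℕ) : Prop :=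
  1 ≤ p ∧ p + (j - i) ≤ n ∧ ∀ q ≤ j - i, s (p + q) = s (i + q)

/-- The substring `s[i..j]` is a right closed repeat of the string `s[1..n]`: the next occurrence
of `s[i..j]` to the right of `i` exists, starts at `i'`, ends at `j' = i' + (j - i)`, and either
`j' = n` or `s[j+1] ≠ s[j'+1]`. -/
def IsRightClosedRepeat (n : ℕ) (s : ℕ → ℕ) (i j : ℕ) : Prop :=
  1 ≤ i ∧ i ≤ j ∧ j ≤ n ∧ ∃ i', i < i' ∧ OccursAt n s i j i' ∧
    (∀ p, i < p → p < i' → ¬ OccursAt n s i j p) ∧
    (i' + (j - i) = n ∨ s (j + 1) ≠ s (i' + (j - i) + 1))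

/-- For every constant `C` there are a length `n ≥ 1`, a string `s` of length `n` and a set
`P ⊆ [1..n]` such that more than `C (n + |P| log₂ n)` right closed repeats of `s` start at
positions in `P`. -/
theorem result (C : ℝ) : ∃ (n : ℕ) (s : ℕ → ℕ) (P : Finset ℕ), 1 ≤ n ∧ P ⊆ Finset.Icc 1 n ∧
    C * ((n : ℝ) + (P.card : ℝ) * Real.logb 2 (n : ℝ)) <
      ({ij : ℕ × ℕ | ij.1 ∈ P ∧ IsRightClosedRepeat n s ij.1 ij.2}.ncard : ℝ) := by
  obtain ⟨R, t, hR, hhl, h⟩ := Pool.Agent.Q265.Rcr.final C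
  refine ⟨(2 * Pool.Agent.Q265.Rcr.hl R t) * (R + 1) ^ t, Pool.Agent.Q265.Rcr.str R t,
    Pool.Agent.Q265.Rcr.PP R t, ?_, Pool.Agent.Q265.Rcr.PP_sub R t, ?_⟩
  · exact Nat.succ_le_of_lt (by positivity)
  · refine h.trans_le ?_
    have := Pool.Agent.Q265.Rcr.count R t hR
    exact_mod_cast this

end Pool.Agent.Results.MP_b69f9e_co.TooManyRepeats
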